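import Pool.Agent.Y795.DLC.Ito
import Pool.Agent.Results.MP_640be2_al.UnboundedDerivedLength

/-!
# A factorized 2-group without an abelian `B₀`

If `⟨A, [B,B]⟩ = A B₀` with `B₀` abelian, then `⟨A, [B,B]⟩` is metabelian by Itô's theorem.  The
normal closure `K` of `[B,B]` in `P = AB` lies in `⟨A, [B,B]⟩`, and `P / K` is the product of two
abelian groups, hence metabelian.  So `P` is soluble of derived length at most four.  But there are
finite 2-groups `P = AB` with `A` abelian, `B` of class two, `A ∩ B = 1` and arbitrarily large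
derived length.
-/

set_option autoImplicit false

namespace Pool.Agent.Results.MP_c57c58_al.NoAbelianB0

open scoped commutatorElement Pointwise
open Pool.Agent.Results.MP_640be2_al.UnboundedDerivedLength

section bound

variable {P : Type} [Group P]

/-- the derived series of `P` from the term `m` on, inside a subgroup `H` that contains it -/
lemma derived_le_map (H : Subgroup P) (m : ℕ) (hm : derivedSeries P m ≤ H) (n : ℕ) :
    derivedSeries P (m + n) ≤ (derivedSeries H n).map H.subtype := by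
  induction n with
  | zero =>
    intro x hx
    exact ⟨⟨x, hm hx⟩, trivial, rfl⟩
  | succ n ih =>
    rw [← add_assoc, derivedSeries_succ, derivedSeries_succ, Subgroup.map_commutator]
    exact Subgroup.commutator_mono ih ih

/-- The factorization forces derived length at most four. -/
lemma derived_four (A B B₀ : Subgroup P) (hfac : ∀ g : P, ∃ a ∈ A, ∃ b ∈ B, g = a * b)
    (hA : ∀ x ∈ A, ∀ y ∈ A, x * y = y * x) (hB₀ : ∀ x ∈ B₀, ∀ y ∈ B₀, x * y = y * x)
    (hB : ∀ x ∈ B, ∀ y ∈ B, ∀ z ∈ B, ⁅⁅x, y⁆, z⁆ = 1)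
    (h : ((A ⊔ ⁅B, B⁆ : Subgroup P) : Set P) = (A : Set P) * (B₀ : Set P)) :
    derivedSeries P 4 = ⊥ := by
  set L : Subgroup P := A ⊔ ⁅B, B⁆ with hL
  have hAL : A ≤ L := le_sup_left
  have hBL : ⁅B, B⁆ ≤ L := le_sup_right
  -- the metabelian subgroup
  have hLmet : derivedSeries L 2 = ⊥ := by
    refine Pool.Agent.Y795.DLC.ito (A.subgroupOf L) (B₀.subgroupOf L) ?_ ?_ ?_
    · intro a ha b hb
      exact Subtype.ext (hA a ha b hb)
    · intro a ha b hb
      exact Subtype.ext (hB₀ a ha b hb)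
    · intro g
      have hg : (g : P) ∈ (A : Set P) * (B₀ : Set P) := by rw [← h]; exact g.2
      obtain ⟨x, hx, y, hy, hxy⟩ := hg
      have hxL : x ∈ L := hAL hx
      have hyL : y ∈ L := by
        have : y = x⁻¹ * g := by rw [← hxy]; simp
        rw [this]; exact mul_mem (inv_mem hxL) g.2
      exact ⟨⟨x, hxL⟩, hx, ⟨y, hyL⟩, hy, Subtype.ext hxy.symm⟩
  -- the normal closure
  set K : Subgroup P := Subgroup.normalClosure (⁅B, B⁆ : Subgroup P) with hK
  have hKL : K ≤ L := by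
    rw [hK, Subgroup.normalClosure, Subgroup.closure_le]
    intro x hx
    rw [Group.mem_conjugatesOfSet_iff] at hx
    obtain ⟨z, hz, hzx⟩ := hx
    obtain ⟨g, rfl⟩ := isConj_iff.mp hzx
    obtain ⟨a, ha, b, hb, rfl⟩ := hfac g
    have hz' : b * z * b⁻¹ = z := by
      have hz2 : z ∈ Subgroup.centralizer (B : Set P) := by
        have : (⁅B, B⁆ : Subgroup P) ≤ Subgroup.centralizer (B : Set P) := by
          rw [Subgroup.commutator_le]
          intro x hx y hy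
          rw [Subgroup.mem_centralizer_iff]
          intro w hw
          have := hB x hx y hy w hw
          rw [commutatorElement_eq_one_iff_mul_comm] at this
          exact this.symm
        exact this hz
      rw [Subgroup.mem_centralizer_iff] at hz2
      rw [hz2 b hb]; simp
    have e : a * b * z * (a * b)⁻¹ = a * (b * z * b⁻¹) * a⁻¹ := by group
    rw [e, hz']
    exact mul_mem (mul_mem (hAL ha) (hBL hz)) (inv_mem (hAL ha))
  -- the quotient is metabelian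
  have hQ : derivedSeries (P ⧸ K) 2 = ⊥ := by
    refine Pool.Agent.Y795.DLC.ito (A.map (QuotientGroup.mk' K)) (B.map (QuotientGroup.mk' K)) ?_ ?_ ?_
    · rintro _ ⟨x, hx, rfl⟩ _ ⟨y, hy, rfl⟩
      rw [← map_mul, ← map_mul, hA x hx y hy]
    · rintro _ ⟨x, hx, rfl⟩ _ ⟨y, hy, rfl⟩
      rw [← commutatorElement_eq_one_iff_mul_comm, ← map_commutatorElement,
        QuotientGroup.mk'_apply, QuotientGroup.eq_one_iff]
      exact Subgroup.subset_normalClosure (Subgroup.commutator_mem_commutator hx hy)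
    · intro g
      obtain ⟨g, rfl⟩ := QuotientGroup.mk'_surjective K g
      obtain ⟨a, ha, b, hb, rfl⟩ := hfac g
      exact ⟨_, ⟨a, ha, rfl⟩, _, ⟨b, hb, rfl⟩, map_mul _ _ _⟩
  have h2 : derivedSeries P 2 ≤ L := by
    refine le_trans ?_ hKL
    have h3 : (derivedSeries P 2).map (QuotientGroup.mk' K) = derivedSeries (P ⧸ K) 2 :=
      map_derivedSeries_eq (QuotientGroup.mk'_surjective K) 2
    rw [hQ, Subgroup.map_eq_bot_iff, QuotientGroup.ker_mk'] at h3
    exact h3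
  have h4 := derived_le_map L 2 h2 2
  rw [hLmet, Subgroup.map_bot] at h4
  exact le_bot_iff.mp h4

end bound

section construction

variable {L : Type} [LieRing L] [Finite L]

/-- The subgroups that belong to independent subrings intersect trivially. -/
lemma inf_bot (hc : ∃ k, Nat.card L = 2 ^ k) (T1 T2 : AddSubgroup L) (h1 : IsSub T1)
    (h2 : IsSub T2) (h : T1 ⊓ T2 = ⊥) :
    ∀ m : ℕ, (mgOf hc m).P T1 ⊓ (mgOf hc m).P T2 = ⊥ ∧
      (mgOf hc m).Q T1 h1 ⊓ (mgOf hc m).Q T2 h2 = ⊥ := by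
  intro m
  induction m with
  | zero =>
    refine ⟨h, ?_⟩
    exact Subsingleton.elim (α := Subgroup Unit) _ _
  | succ m ih =>
    obtain ⟨ihP, ihQ⟩ := ih
    have hP : ∀ x : (mgOf hc m).M, x ∈ (mgOf hc m).P T1 → x ∈ (mgOf hc m).P T2 → x = 0 := by
      intro x hx1 hx2
      have : x ∈ (mgOf hc m).P T1 ⊓ (mgOf hc m).P T2 := ⟨hx1, hx2⟩
      rw [ihP] at this
      exact this
    have hQ : ∀ x : (mgOf hc m).G, x ∈ (mgOf hc m).Q T1 h1 → x ∈ (mgOf hc m).Q T2 h2 → x = 1 := by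
      intro x hx1 hx2
      have : x ∈ (mgOf hc m).Q T1 h1 ⊓ (mgOf hc m).Q T2 h2 := ⟨hx1, hx2⟩
      rw [ihQ] at this
      exact this
    refine ⟨?_, ?_⟩
    · rw [eq_bot_iff]
      rintro x ⟨⟨ha, hb⟩, ⟨ha', hb'⟩⟩
      exact DN.ext (hP _ ha ha') (hP _ hb hb')
    · rw [eq_bot_iff]
      rintro x ⟨⟨ha, hb⟩, ⟨ha', hb'⟩⟩
      exact SD.ext (hP _ ha ha') (hQ _ hb hb')

end construction

open L5 in
lemma A5_inf_B5 : A5 ⊓ B5 = ⊥ := by
  rw [eq_bot_iff]
  rintro x ⟨⟨h1, h2, h3⟩, ⟨h4, h5⟩⟩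
  rw [AddSubgroup.mem_bot]
  apply L5.ext
  · rw [h4, h2, h3]; rfl
  · rw [h5, h1, h3]; rfl
  · exact h1
  · exact h2
  · exact h3

open L5 in
/-- The groups of the construction, with trivially intersecting factors. -/
lemma construction_inf (N : ℕ) : ∃ (G : Type) (_ : Group G) (_ : Finite G) (A B : Subgroup G)
    (_ : Group.IsNilpotent A) (_ : Group.IsNilpotent B),
    IsPGroup 2 G ∧ (∀ g : G, ∃ a ∈ A, ∃ b ∈ B, g = a * b) ∧ A ⊓ B = ⊥ ∧
      (∀ x ∈ A, ∀ y ∈ A, x * y = y * x) ∧ (∀ x ∈ B, ∀ y ∈ B, ∀ z ∈ B, ⁅⁅x, y⁆, z⁆ = 1) ∧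
      Group.nilpotencyClass A = 1 ∧ Group.nilpotencyClass B = 2 ∧ derivedSeries G N ≠ ⊥ := by
  let m := 2 ^ (N + 1)
  have hm2 : 2 ≤ m := by
    show 2 ≤ 2 ^ (N + 1)
    rw [pow_succ]
    have : 0 < 2 ^ N := Nat.pow_pos (by norm_num)
    omega
  let X := mgOf (L := L5) ⟨5, L5.card⟩ m
  have hA : ∀ a b : GA X, ⁅a, b⁆ = 1 := by
    intro a b
    apply Subtype.ext
    exact GA_comm X a.1 b.1 a.2 b.2
  obtain ⟨nA, cA⟩ := class_le_one hA
  let ZB : Subgroup (GB X) := (GZ X).subgroupOf (GB X)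
  have hB1 : ∀ a b : GB X, ⁅a, b⁆ ∈ ZB := by
    intro a b
    exact GB_comm X a.1 b.1 a.2 b.2
  have hB2 : ∀ a ∈ ZB, ∀ b : GB X, ⁅a, b⁆ = 1 := by
    intro a ha b
    apply Subtype.ext
    exact GZ_comm X a.1 b.1 ha b.2
  obtain ⟨nB, cB⟩ := class_le_two ZB hB1 hB2
  have r0 : ({0} : Finset ℕ) ⊆ Finset.range m := by
    intro i hi
    rw [Finset.mem_singleton] at hi
    rw [hi, Finset.mem_range]; omega
  have r01 : ({0} ∪ {1} : Finset ℕ) ⊆ Finset.range m := by
    intro i hi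
    rw [Finset.mem_union, Finset.mem_singleton, Finset.mem_singleton] at hi
    rw [Finset.mem_range]; omega
  refine ⟨X.G, inferInstance, inferInstance, GA X, GB X, nA, nB, ?_, fact X, ?_, ?_, ?_, ?_, ?_, ?_⟩
  · obtain ⟨k, hk⟩ := X.cG
    exact IsPGroup.of_card hk
  · exact (inf_bot ⟨5, L5.card⟩ A5 B5 subA subB A5_inf_B5 m).2
  · intro x hx y hy
    exact commutatorElement_eq_one_iff_mul_comm.mp (GA_comm X x y hx hy)
  · intro x hx y hy z hz
    exact GZ_comm X _ z (GB_comm X x y hx hy) hz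
  · refine le_antisymm cA ?_
    rw [Nat.one_le_iff_ne_zero]
    intro h0
    rw [Group.nilpotencyClass_zero_iff_subsingleton] at h0
    have hx : (⟨1, 0, 0, 0, 0⟩ : L5) ∈ A5 := ⟨rfl, rfl, rfl⟩
    have h1 := E_inj X {0} r0 (Finset.singleton_nonempty 0) ⟨1, 0, 0, 0, 0⟩
      (fun h => one_ne_zero (congrArg L5.t1 h))
    apply h1
    have := h0.elim (⟨_, X.E_mem {0} A5 subA _ hx⟩ : GA X) 1
    exact congrArg Subtype.val this
  · refine le_antisymm cB ?_
    by_contra hlt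
    have hle : Group.nilpotencyClass (GB X) ≤ 1 := by omega
    rw [Group.IsNilpotent.nilpotencyClass_le_one_iff] at hle
    have hx : (⟨0, 1, 1, 0, 0⟩ : L5) ∈ B5 := ⟨rfl, rfl⟩
    have hy : (⟨1, 0, 0, 1, 0⟩ : L5) ∈ B5 := ⟨rfl, rfl⟩
    have hc := hle.is_comm.comm (⟨_, X.E_mem {0} B5 subB _ hx⟩ : GB X) ⟨_, X.E_mem {1} B5 subB _ hy⟩
    have hc' : X.E {0} ⟨0, 1, 1, 0, 0⟩ * X.E {1} ⟨1, 0, 0, 1, 0⟩ = X.E {1} ⟨1, 0, 0, 1, 0⟩ * X.E {0} ⟨0, 1, 1, 0, 0⟩ :=
      congrArg Subtype.val hc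
    have hcomm := X.E_comm {0} {1} ⟨0, 1, 1, 0, 0⟩ ⟨1, 0, 0, 1, 0⟩ (by simp) (Finset.singleton_nonempty 0)
      (Finset.singleton_nonempty 1)
    rw [commutatorElement_eq_one_iff_mul_comm.2 hc'] at hcomm
    refine E_inj X ({0} ∪ {1}) r01 ⟨0, by simp⟩ _ ?_ hcomm.symm
    intro h
    have := congrArg L5.u3 h
    rw [lie_u3] at this
    exact absurd this (by decide)
  · intro hbot
    have hmem := E_mem_derived X X5 perfectX N (Finset.range m)
      (by rw [Finset.card_range]; exact Nat.pow_le_pow_right (by norm_num) (Nat.le_succ N)) ⟨0, 0, 1, 0, 0⟩ ⟨rfl, rfl⟩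
    rw [hbot, Subgroup.mem_bot] at hmem
    exact E_inj X (Finset.range m) (Finset.Subset.refl _) (Finset.nonempty_range_iff.2 (by omega)) ⟨0, 0, 1, 0, 0⟩
      (fun h => one_ne_zero (congrArg L5.u1 h)) hmem

/-- There is a finite 2-group `P = AB` with `A` abelian, `B` nilpotent of class exactly two and
`A ∩ B = 1` such that `⟨A, [B,B]⟩` is not the product of `A` and an abelian subgroup of `P`; in
particular there is no abelian `B₀ ≤ B` with `⟨A, [B,B]⟩ = A B₀`. -/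
theorem result :
    ∃ (P : Type) (_ : Group P) (_ : Finite P) (A B : Subgroup P) (_ : Group.IsNilpotent B),
      IsPGroup 2 P ∧ (A : Set P) * (B : Set P) = Set.univ ∧ A ⊓ B = ⊥ ∧
      (∀ x ∈ A, ∀ y ∈ A, x * y = y * x) ∧ Group.nilpotencyClass B = 2 ∧
      (∀ B₀ : Subgroup P, (∀ x ∈ B₀, ∀ y ∈ B₀, x * y = y * x) →
        ((A ⊔ ⁅B, B⁆ : Subgroup P) : Set P) ≠ (A : Set P) * (B₀ : Set P)) := by
  obtain ⟨G, iG, iF, A, B, nA, nB, hp, hfac, hinf, hA, hB, cA, cB, hd⟩ := construction_inf 4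
  refine ⟨G, iG, iF, A, B, nB, hp, ?_, hinf, hA, cB, ?_⟩
  · rw [Set.eq_univ_iff_forall]
    intro g
    obtain ⟨a, ha, b, hb, hab⟩ := hfac g
    exact ⟨a, ha, b, hb, hab.symm⟩
  · intro B₀ hB₀ h
    exact hd (derived_four A B B₀ hfac hA hB₀ hB h)

end Pool.Agent.Results.MP_c57c58_al.NoAbelianB0
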